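import Mathlib
import Pool.Agent.Y777.AM.Z

/-!
# Multiple zeta values of the same weight: relations with few terms of bounded depth

Consider a relation between multiple zeta values of weight `k` with coefficients at most `C ^ k`.
The terms are of two kinds: at most `N` terms of the first kind, whose first argument is at least
`δ k`, and arbitrarily many terms of the second kind, with at least `ε k` arguments `≥ 2` (this
holds for almost all of the `2 ^ (k - 2)` admissible indices if `ε < 1 / 4`). Then no term of the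
first kind has bounded depth, if `k` is large.

The proof uses the subspace theorem (helper files `Pool.Agent.Y777.AL`, `Pool.Agent.Y777.AM`, after
`Pool.Agent.Y760.ZG`).
-/

set_option autoImplicit false

namespace Pool.Agent.Results.MP_56e040_nt.BoundedDepthTerms

/-- `trunc [s_1, ..., s_r] m` is the sum of `∏ n_i ^ (-s_i)` over `m > n_1 > ... > n_r ≥ 1` -/
noncomputable def trunc : List ℕ → ℕ → ℝ
  | [], _ => 1
  | s :: l, m => ∑ j ∈ Finset.Ico 1 m, trunc l j / (j : ℝ) ^ s

/-- the multiple zeta value `ζ(s_1, ..., s_r)`, the sum of `∏ n_i ^ (-s_i)` over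
`n_1 > ... > n_r ≥ 1` -/
noncomputable def mzv : List ℕ → ℝ
  | [] => 1
  | s :: l => ∑' m : ℕ, trunc l (m + 1) / ((m + 1 : ℕ) : ℝ) ^ s

/-- the admissible indices of weight `k` -/
def Admissible (k : ℕ) (w : List ℕ) : Prop :=
  (∀ s ∈ w, 1 ≤ s) ∧ (∀ s ∈ w.head?, 2 ≤ s) ∧ w.sum = k

/-- the number of arguments `≥ 2` -/
def height (w : List ℕ) : ℕ := w.countP (fun s => decide (2 ≤ s))

lemma trunc_eq (w : List ℕ) : ∀ m, trunc w m = Pool.Agent.Y760.ZG.hr w m := by
  induction w with
  | nil => intro m; rw [trunc, Pool.Agent.Y760.ZG.hr_nil]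
  | cons s w ih =>
    intro m
    rw [trunc, Pool.Agent.Y760.ZG.hr_cons]
    exact Finset.sum_congr rfl fun j _ => by rw [ih]

lemma mzv_eq (w : List ℕ) : mzv w = Pool.Agent.Y760.ZG.mz w := by
  cases w with
  | nil => rw [mzv, Pool.Agent.Y760.ZG.mz]
  | cons s w =>
    rw [mzv, Pool.Agent.Y760.ZG.mz]
    exact tsum_congr fun m => by rw [trunc_eq]

/-- Let `β_1, ..., β_l` be real algebraic numbers, linearly independent over `ℚ`, let `N`, `r` be
numbers, `δ, ε > 0` and `C` real. There are `B > 1` and `k0` such that for all `k ≥ k0`, all sets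
`V` of at most `N` admissible indices of weight `k` with first argument at least `δ k`, all sets
`H` of admissible indices of weight `k` with at least `ε k` arguments `≥ 2`, all coefficients
`a_v = ∑ a_{v j} β_j` with integers `a_{v j}` of absolute value at most `C ^ k`, such that `a_v ≠ 0`
for some `v` in `V` of depth at most `r`, and all real numbers `b_h` of absolute value at most
`C ^ k`: `|∑_V a_v ζ(v) - ∑_H b_h ζ(h)| > B ^ (-k)`. -/
theorem result {l : ℕ} (β : Fin l → ℝ) (hβ : ∀ j, IsAlgebraic ℚ (β j))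
    (hli : LinearIndependent ℚ β) (N r : ℕ) (δ ε C : ℝ) (hδ : 0 < δ) (hε : 0 < ε) :
    ∃ B : ℝ, 1 < B ∧ ∃ k0 : ℕ, ∀ k : ℕ, k0 ≤ k → ∀ V H : Finset (List ℕ), V.card ≤ N →
      (∀ v ∈ V, Admissible k v ∧ ∀ s ∈ v.head?, δ * k ≤ s) →
      (∀ h ∈ H, Admissible k h ∧ ε * k ≤ height h) →
      ∀ (a : List ℕ → Fin l → ℤ) (b : List ℕ → ℝ), (∃ v ∈ V, v.length ≤ r ∧ a v ≠ 0) →
      (∀ v ∈ V, ∀ j, |(a v j : ℝ)| ≤ C ^ k) → (∀ h ∈ H, |b h| ≤ C ^ k) →
      (B ^ k)⁻¹ < |∑ v ∈ V, (∑ j, a v j * β j) * mzv v - ∑ h ∈ H, b h * mzv h| := by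
  obtain ⟨B, hB, k0, h⟩ := Pool.Agent.Y777.AM.H1 β hβ hli N r δ ε C hδ hε
  refine ⟨B, hB, k0, fun k hk V H hVN hV hH a b ha haC hbC => ?_⟩
  have h1 := h k hk V H hVN (fun v hv => ⟨(hV v hv).1.1, (hV v hv).1.2.2, (hV v hv).2⟩)
    (fun v hv => ⟨(hH v hv).1.1, (hH v hv).1.2.2, (hH v hv).1.2.1, (hH v hv).2⟩) a b (by
      obtain ⟨v, hv, h2, h3⟩ := ha
      refine ⟨v, hv, h2, ?_⟩
      by_contra hcon
      push Not at hcon
      exact h3 (funext hcon)) haC hbC
  refine lt_of_lt_of_eq h1 ?_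
  congr 2
  · refine Finset.sum_congr rfl fun v _ => ?_
    rw [Finset.sum_mul, mzv_eq]
    exact Finset.sum_congr rfl fun j _ => by ring
  · exact Finset.sum_congr rfl fun v _ => by rw [mzv_eq]

end Pool.Agent.Results.MP_56e040_nt.BoundedDepthTerms
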